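import Pool.Agent.Helper38_S1S3.Sph

/-!
# Module EMB: the smooth embedding
-/

set_option autoImplicit false
set_option linter.unusedSectionVars false

open scoped Manifold ContDiff Topology
open Set Module

noncomputable section

namespace Pool.Agent.Helper38S1S3

open Pool.Agent.S1S3

theorem ext4 {x y : Eu 4} (h0 : x 0 = y 0) (h1 : x 1 = y 1) (h2 : x 2 = y 2) (h3 : x 3 = y 3) :
    x = y := by
  ext i
  fin_cases i
  · exact h0
  · exact h1
  · exact h2
  · exact h3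

theorem ext3 {x y : Eu 3} (h0 : x 0 = y 0) (h1 : x 1 = y 1) (h2 : x 2 = y 2) : x = y := by
  ext i
  fin_cases i
  · exact h0
  · exact h1
  · exact h2

theorem incE_zero (x : Eu 3) : (incE x : Eu 4) 0 = x 0 := incE_castSucc x 0
theorem incE_one (x : Eu 3) : (incE x : Eu 4) 1 = x 1 := incE_castSucc x 1
theorem incE_two (x : Eu 3) : (incE x : Eu 4) 2 = x 2 := incE_castSucc x 2
theorem incE_three (x : Eu 3) : (incE x : Eu 4) 3 = 0 := incE_last x
theorem incE2_zero (x : Eu 2) : (incE x : Eu 3) 0 = x 0 := incE_castSucc x 0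
theorem incE2_one (x : Eu 2) : (incE x : Eu 3) 1 = x 1 := incE_castSucc x 1
theorem incE2_two (x : Eu 2) : (incE x : Eu 3) 2 = 0 := incE_last x

theorem rot4_0 (z : ℂ) (x : Eu (2 + 2)) : (rot z x : Eu 4) 0 = z.re * x 0 - z.im * x 1 :=
  rot_apply_zero z x
theorem rot4_1 (z : ℂ) (x : Eu (2 + 2)) : (rot z x : Eu 4) 1 = z.im * x 0 + z.re * x 1 :=
  rot_apply_one z x
theorem rot4_2 (z : ℂ) (x : Eu (2 + 2)) : (rot z x : Eu 4) 2 = x 2 := rot_apply_ge z x 0
theorem rot4_3 (z : ℂ) (x : Eu (2 + 2)) : (rot z x : Eu 4) 3 = x 3 := rot_apply_ge z x 1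
theorem rot3_0 (z : ℂ) (x : Eu (1 + 2)) : (rot z x : Eu 3) 0 = z.re * x 0 - z.im * x 1 :=
  rot_apply_zero z x
theorem rot3_1 (z : ℂ) (x : Eu (1 + 2)) : (rot z x : Eu 3) 1 = z.im * x 0 + z.re * x 1 :=
  rot_apply_one z x
theorem rot3_2 (z : ℂ) (x : Eu (1 + 2)) : (rot z x : Eu 3) 2 = x 2 := rot_apply_ge z x 0
theorem rot2_0 (z : ℂ) (x : Eu (0 + 2)) : (rot z x : Eu 2) 0 = z.re * x 0 - z.im * x 1 :=
  rot_apply_zero z x
theorem rot2_1 (z : ℂ) (x : Eu (0 + 2)) : (rot z x : Eu 2) 1 = z.im * x 0 + z.re * x 1 :=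
  rot_apply_one z x

theorem incE_rot (z : ℂ) (x : Eu 3) :
    (incE (rot (k := 1) z x : Eu 3) : Eu 4) = rot (k := 2) z (incE x : Eu 4) := by
  apply ext4
  · rw [incE_zero, rot3_0, rot4_0, incE_zero, incE_one]
  · rw [incE_one, rot3_1, rot4_1, incE_zero, incE_one]
  · rw [incE_two, rot3_2, rot4_2, incE_two]
  · rw [incE_three, rot4_3, incE_three]

theorem incE_rot2 (z : ℂ) (x : Eu 2) :
    (incE (rot (k := 0) z x : Eu 2) : Eu 3) = rot (k := 1) z (incE x : Eu 3) := by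
  apply ext3
  · rw [incE2_zero, rot2_0, rot3_0, incE2_zero, incE2_one]
  · rw [incE2_one, rot2_1, rot3_1, incE2_zero, incE2_one]
  · rw [incE2_two, rot3_2, incE2_two]

theorem incE_sg (b : Eu 2) : (incE (sg b : Eu 3) : Eu 4) = sg (incE b : Eu 3) := by
  apply ext4
  · rw [incE_zero, sg_zero, sg_zero, norm_incE]
  · rw [incE_one]
    change b 0 = (incE b : Eu 3) 0
    rw [incE2_zero]
  · rw [incE_two]
    change b 1 = (incE b : Eu 3) 1
    rw [incE2_one]
  · rw [incE_three]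
    change 0 = (incE b : Eu 3) 2
    rw [incE2_two]

theorem incE_tubeV (ζ : Circle) (b : Eu 2) :
    (incE (tubeV (m := 0) ζ b : Eu 3) : Eu 4) = tubeV (m := 1) ζ (incE b : Eu 3) := by
  unfold tubeV
  rw [← incE_sg]
  exact incE_rot _ _

theorem incE_core (ζ : Circle) : (incE (core (m := 0) ζ : Eu 3) : Eu 4) = core (m := 1) ζ := by
  unfold core
  have h : (incE (EuclideanSpace.single (0 : Fin 3) (1 : ℝ)) : Eu 4) =
      EuclideanSpace.single (0 : Fin 4) (1 : ℝ) := by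
    apply ext4
    · rw [incE_zero]; simp
    · rw [incE_one]; simp
    · rw [incE_two]; simp
    · rw [incE_three]; simp
  exact (incE_rot _ _).trans (congrArg _ h)

theorem incE_tw (ζ : Circle) (b : Eu 2) :
    (incE (tw (m := 0) ζ b : Eu 2) : Eu 3) = tw (m := 1) ζ (incE b : Eu 3) := by
  unfold tw
  rw [norm_incE]
  change incL 2 (((1 / 2 - ‖b‖) / ‖b‖) • rot (ζ : ℂ) b) = _
  rw [map_smul, incL_apply]
  exact congrArg _ (incE_rot2 _ _)

/-- a point of the neck in the equator comes from the smaller neck -/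
theorem tubeV_last (ζ : Circle) (b : Eu 3) (x : Eu 3) (h : (incE x : Eu 4) = tubeV (m := 1) ζ b) :
    ∃ b' : Eu 2, incE b' = b := by
  refine ⟨WithLp.toLp 2 ![b 0, b 1], ?_⟩
  have h3 : (tubeV (m := 1) ζ b : Eu 4) 3 = b 2 := by
    unfold tubeV
    exact rot4_3 _ _
  have h4 : b 2 = 0 := by
    rw [← h3, ← h, incE_three]
  apply ext3
  · rw [incE2_zero]; simp
  · rw [incE2_one]; simp
  · rw [incE2_two, h4]

/-- the inclusion of the pieces -/
def incP (p : ℕ) (a : Piece p 0) : Piece p 1 :=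
  ⟨(a.1.1, incS a.1.2), by
    intro ζ hζ h
    refine a.2 ζ hζ ?_
    apply incE_injective
    rw [incE_core]
    exact h⟩

/-- the inclusion of the necks -/
def incN (q : Neck 0) : Neck 1 := ⟨(q.1.1, incE q.1.2), by
  have := q.2
  simp only [norm_incE]
  exact this⟩

theorem incP_injective (p : ℕ) : Function.Injective (incP p) := by
  intro a b h
  have h2 : a.1.1 = b.1.1 := congrArg (fun u : Piece p 1 => u.1.1) h
  have h3 : incS a.1.2 = incS b.1.2 := congrArg (fun u : Piece p 1 => u.1.2) h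
  apply Subtype.ext
  apply Prod.ext h2
  apply Subtype.ext
  exact incE_injective (congrArg Subtype.val h3)

theorem continuous_incP (p : ℕ) : Continuous (incP p) := by
  refine Continuous.subtype_mk ?_ _
  exact (continuous_fst.comp continuous_subtype_val).prodMk
    (continuous_incS.comp (continuous_snd.comp continuous_subtype_val))

theorem incP_neckMap (p : ℕ) (hp : p = 2 ∨ p = 3) (q : Neck 0) :
    incP p (neckMap p 0 hp q) = neckMap p 1 hp (incN q) := by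
  apply Subtype.ext
  refine Prod.ext ?_ ?_
  · rfl
  · apply Subtype.ext
    exact incE_tubeV _ _

theorem incN_twN (q : Neck 0) : incN (twN 0 q) = twN 1 (incN q) := by
  apply Subtype.ext
  refine Prod.ext ?_ ?_
  · rfl
  · exact incE_tw _ _

/-- the gluing relations are compatible -/
theorem glue_iff {Y X : Type} [TopologicalSpace Y] [TopologicalSpace X] (D₀ : Glued 0 Y)
    (D₁ : Glued 1 X) (a : Piece 2 0) (b : Piece 3 0) :
    D₁.j₂ (incP 2 a) = D₁.j₃ (incP 3 b) ↔ D₀.j₂ a = D₀.j₃ b := by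
  rw [D₁.glue, D₀.glue]
  constructor
  · rintro ⟨q, h1, h2⟩
    have h3 : (incE (a.1.2 : Eu 3) : Eu 4) = tubeV (m := 1) q.1.1 q.1.2 :=
      congrArg (fun u : Piece 2 1 => (u.1.2 : Eu 4)) h1
    obtain ⟨b', hb'⟩ := tubeV_last _ _ _ h3
    have hn : ‖b'‖ = ‖q.1.2‖ := by rw [← hb', norm_incE]
    let q' : Neck 0 := ⟨(q.1.1, b'), by
      have := q.2
      change 0 < ‖b'‖ ∧ ‖b'‖ < 1 / 2
      rw [hn]
      exact this⟩
    have hq : incN q' = q := by
      apply Subtype.ext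
      exact Prod.ext rfl hb'
    refine ⟨q', ?_, ?_⟩
    · apply incP_injective
      rw [incP_neckMap, hq, h1]
    · apply incP_injective
      rw [incP_neckMap, incN_twN, hq, h2]
  · rintro ⟨q, rfl, rfl⟩
    exact ⟨incN q, incP_neckMap _ _ _, by rw [incP_neckMap, incN_twN]⟩

/-- the map of the glued spaces -/
theorem exists_map {Y X : Type} [TopologicalSpace Y] [TopologicalSpace X] (D₀ : Glued 0 Y)
    (D₁ : Glued 1 X) : ∃ ι : Y → X, (∀ a, ι (D₀.j₂ a) = D₁.j₂ (incP 2 a)) ∧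
      (∀ b, ι (D₀.j₃ b) = D₁.j₃ (incP 3 b)) := by
  classical
  have h : ∀ y : Y, ∃ x : X, (∀ a, D₀.j₂ a = y → x = D₁.j₂ (incP 2 a)) ∧
      (∀ b, D₀.j₃ b = y → x = D₁.j₃ (incP 3 b)) := by
    intro y
    have hy : y ∈ range D₀.j₂ ∪ range D₀.j₃ := by rw [D₀.cover]; trivial
    rcases hy with ⟨a, rfl⟩ | ⟨b, rfl⟩
    · refine ⟨D₁.j₂ (incP 2 a), fun a' ha' => ?_, fun b hb => ?_⟩
      · rw [D₀.emb₂.injective ha']
      · exact (glue_iff D₀ D₁ a b).2 hb.symm
    · refine ⟨D₁.j₃ (incP 3 b), fun a ha => ?_, fun b' hb' => ?_⟩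
      · exact ((glue_iff D₀ D₁ a b).2 ha).symm
      · rw [D₀.emb₃.injective hb']
  choose ι h2 h3 using h
  exact ⟨ι, fun a => h2 _ a rfl, fun b => h3 _ b rfl⟩

theorem map_continuous {Y X : Type} [TopologicalSpace Y] [TopologicalSpace X] (D₀ : Glued 0 Y)
    (D₁ : Glued 1 X) (ι : Y → X) (h2 : ∀ a, ι (D₀.j₂ a) = D₁.j₂ (incP 2 a))
    (h3 : ∀ b, ι (D₀.j₃ b) = D₁.j₃ (incP 3 b)) : Continuous ι := by
  rw [continuous_iff_continuousAt]
  intro y
  have hy : y ∈ range D₀.j₂ ∪ range D₀.j₃ := by rw [D₀.cover]; trivial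
  rcases hy with ⟨a, rfl⟩ | ⟨b, rfl⟩
  · rw [← D₀.emb₂.continuousAt_iff]
    have : ι ∘ D₀.j₂ = D₁.j₂ ∘ incP 2 := funext h2
    rw [this]
    exact (D₁.emb₂.continuous.comp (continuous_incP 2)).continuousAt
  · rw [← D₀.emb₃.continuousAt_iff]
    have : ι ∘ D₀.j₃ = D₁.j₃ ∘ incP 3 := funext h3
    rw [this]
    exact (D₁.emb₃.continuous.comp (continuous_incP 3)).continuousAt

theorem map_injective {Y X : Type} [TopologicalSpace Y] [TopologicalSpace X] (D₀ : Glued 0 Y)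
    (D₁ : Glued 1 X) (ι : Y → X) (h2 : ∀ a, ι (D₀.j₂ a) = D₁.j₂ (incP 2 a))
    (h3 : ∀ b, ι (D₀.j₃ b) = D₁.j₃ (incP 3 b)) : Function.Injective ι := by
  intro y y' h
  have hy : y ∈ range D₀.j₂ ∪ range D₀.j₃ := by rw [D₀.cover]; trivial
  have hy' : y' ∈ range D₀.j₂ ∪ range D₀.j₃ := by rw [D₀.cover]; trivial
  rcases hy with ⟨a, rfl⟩ | ⟨b, rfl⟩ <;> rcases hy' with ⟨a', rfl⟩ | ⟨b', rfl⟩
  · rw [h2, h2] at h
    rw [incP_injective 2 (D₁.emb₂.injective h)]
  · rw [h2, h3] at h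
    exact (glue_iff D₀ D₁ a b').1 h
  · rw [h3, h2] at h
    exact ((glue_iff D₀ D₁ a' b).1 h.symm).symm
  · rw [h3, h3] at h
    rw [incP_injective 3 (D₁.emb₃.injective h)]

/-- the inclusion of an open subset as a partial diffeomorphism, inverted -/
def coeInv {E H : Type} [NormedAddCommGroup E] [NormedSpace ℝ E] [TopologicalSpace H]
    {I : ModelWithCorners ℝ E H} {M : Type} [TopologicalSpace M] [ChartedSpace H M]
    [IsManifold I ∞ M] (U : TopologicalSpace.Opens M) (a : U) :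
    PartialDiffeomorph I I M U ∞ where
  toPartialEquiv := (U.openPartialHomeomorphSubtypeCoe ⟨a⟩).symm.toPartialEquiv
  open_source := (U.openPartialHomeomorphSubtypeCoe ⟨a⟩).symm.open_source
  open_target := (U.openPartialHomeomorphSubtypeCoe ⟨a⟩).symm.open_target
  contMDiffOn_toFun := by
    intro y hy
    apply ContMDiffAt.contMDiffWithinAt
    have hyU : y ∈ U := by
      have : y ∈ (U.openPartialHomeomorphSubtypeCoe ⟨a⟩).target := hy
      rwa [TopologicalSpace.Opens.openPartialHomeomorphSubtypeCoe_target] at this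
    have hev : ∀ᶠ z in 𝓝 y, z ∈ U := U.isOpen.mem_nhds hyU
    set g := (U.openPartialHomeomorphSubtypeCoe ⟨a⟩).symm with hg
    have hgz : ∀ z, z ∈ U → ((g z : U) : M) = z := by
      intro z hz
      have : z ∈ (U.openPartialHomeomorphSubtypeCoe ⟨a⟩).target := by
        rw [TopologicalSpace.Opens.openPartialHomeomorphSubtypeCoe_target]
        exact hz
      exact (U.openPartialHomeomorphSubtypeCoe ⟨a⟩).right_inv this
    have himm : Manifold.IsImmersionAtOfComplement PUnit.{1} I I ∞ (Subtype.val : U → M) (g y) :=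
      Manifold.IsImmersionAtOfComplement.of_opens U (g y)
    refine (ContMDiffAt.iff_comp_isImmersionAtOfComplement himm).2 ⟨?_, ?_⟩
    · apply g.continuousOn.continuousAt
      exact g.open_source.mem_nhds hy
    · refine contMDiffAt_id.congr_of_eventuallyEq ?_
      filter_upwards [hev] with z hz
      exact hgz z hz
  contMDiffOn_invFun := by
    have h : ContMDiff I I ∞ (Subtype.val : U → M) := contMDiff_subtype_val
    exact h.contMDiffOn

theorem coeInv_apply {E H : Type} [NormedAddCommGroup E] [NormedSpace ℝ E] [TopologicalSpace H]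
    {I : ModelWithCorners ℝ E H} {M : Type} [TopologicalSpace M] [ChartedSpace H M]
    [IsManifold I ∞ M] (U : TopologicalSpace.Opens M) (a : U) (z : M) (hz : z ∈ U) :
    (coeInv (I := I) U a) z = ⟨z, hz⟩ := by
  have : z ∈ (U.openPartialHomeomorphSubtypeCoe ⟨a⟩).target := by
    rw [TopologicalSpace.Opens.openPartialHomeomorphSubtypeCoe_target]
    exact hz
  exact Subtype.ext ((U.openPartialHomeomorphSubtypeCoe ⟨a⟩).right_inv this)

theorem coeInv_source {E H : Type} [NormedAddCommGroup E] [NormedSpace ℝ E] [TopologicalSpace H]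
    {I : ModelWithCorners ℝ E H} {M : Type} [TopologicalSpace M] [ChartedSpace H M]
    [IsManifold I ∞ M] (U : TopologicalSpace.Opens M) (a : U) (z : M) (hz : z ∈ U) :
    z ∈ (coeInv (I := I) U a).source := by
  change z ∈ (U.openPartialHomeomorphSubtypeCoe ⟨a⟩).target
  rw [TopologicalSpace.Opens.openPartialHomeomorphSubtypeCoe_target]
  exact hz

theorem incP_immersion (p : ℕ) (a : Piece p 0) :
    Manifold.IsImmersionAtOfComplement (PUnit.{1} × Eu 1) ((𝓡 1).prod (𝓡 2))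
      ((𝓡 1).prod (𝓡 3)) ∞ (incP p) a := by
  have h1 : Manifold.IsImmersionAtOfComplement (PUnit.{1} × Eu 1) ((𝓡 1).prod (𝓡 2))
      ((𝓡 1).prod (𝓡 3)) ∞ (Prod.map (@id Circle) (incS : Sn 2 → Sn 3)) a.1 :=
    (Manifold.IsImmersionOfComplement.id a.1.1).prodMap (sphere_immersion a.1.2)
  have h2 := immersionAt_transfer (f' := incP p) h1 (coeInv (pieceO p 0) a)
    (coeInv (pieceO p 1) (incP p a)) (coeInv_source _ _ _ a.2)
    (coeInv_source _ _ _ (incP p a).2) ?_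
  · rw [coeInv_apply _ _ _ a.2] at h2
    exact h2
  · have hev : ∀ᶠ z in 𝓝 a.1, z ∈ pieceO p 0 := (pieceO p 0).isOpen.mem_nhds a.2
    filter_upwards [hev] with z hz
    rw [coeInv_apply _ _ _ hz]
    exact (coeInv_apply _ _ _ (incP p ⟨z, hz⟩).2).symm

theorem imm_piece {Y X : Type} [TopologicalSpace Y] [TopologicalSpace X]
    [ChartedSpace (ModelProd (Eu 1) (Eu 2)) Y] [ChartedSpace (ModelProd (Eu 1) (Eu 3)) X]
    [IsManifold ((𝓡 1).prod (𝓡 2)) ∞ Y] [IsManifold ((𝓡 1).prod (𝓡 3)) ∞ X]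
    (p : ℕ) (j : Piece p 0 → Y) (j' : Piece p 1 → X)
    (hj : IsLocalDiffeomorph ((𝓡 1).prod (𝓡 2)) ((𝓡 1).prod (𝓡 2)) ∞ j)
    (hj' : IsLocalDiffeomorph ((𝓡 1).prod (𝓡 3)) ((𝓡 1).prod (𝓡 3)) ∞ j')
    (ι : Y → X) (h : ∀ a, ι (j a) = j' (incP p a)) (a : Piece p 0) :
    Manifold.IsImmersionAtOfComplement (PUnit.{1} × Eu 1) ((𝓡 1).prod (𝓡 2))
      ((𝓡 1).prod (𝓡 3)) ∞ ι (j a) := by
  obtain ⟨Φ, hΦ, hΦe⟩ := hj a
  obtain ⟨Ψ, hΨ, hΨe⟩ := hj' (incP p a)
  have h2 := immersionAt_transfer (f' := ι) (incP_immersion p a) Φ Ψ hΦ hΨ ?_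
  · rw [← hΦe hΦ] at h2
    exact h2
  · have e1 : ∀ᶠ y in 𝓝 a, y ∈ Φ.source := Φ.open_source.mem_nhds hΦ
    have e2 : ∀ᶠ y in 𝓝 a, incP p y ∈ Ψ.source :=
      (continuous_incP p).continuousAt.eventually (Ψ.open_source.mem_nhds hΨ)
    filter_upwards [e1, e2] with y h3 h4
    rw [← hΦe h3, ← hΨe h4, h]

/-- module EMB -/
theorem emb : EmbStatement := by
  intro Y X _ _ _ _ _ _ D₀ D₁ S₀ S₁
  obtain ⟨ι, h2, h3⟩ := exists_map D₀ D₁
  have hc := map_continuous D₀ D₁ ι h2 h3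
  have hi := map_injective D₀ D₁ ι h2 h3
  have m₀ : IsManifold ((𝓡 1).prod (𝓡 2)) ∞ Y := S₀.mfd
  have m₁ : IsManifold ((𝓡 1).prod (𝓡 3)) ∞ X := S₁.mfd
  refine ⟨⟨ι, hc⟩, ⟨?_, ?_⟩, ?_, ?_⟩
  · intro a a' h4 h5
    change ι (D₀.j₂ a) = D₁.j₂ a'
    rw [h2]
    congr 1
    apply Subtype.ext
    exact Prod.ext h4.symm (Subtype.ext h5.symm)
  · intro a a' h4 h5
    change ι (D₀.j₃ a) = D₁.j₃ a'
    rw [h3]
    congr 1
    apply Subtype.ext
    exact Prod.ext h4.symm (Subtype.ext h5.symm)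
  · apply Manifold.IsImmersionOfComplement.isImmersion (F := PUnit.{1} × Eu 1)
    intro y
    have hy : y ∈ range D₀.j₂ ∪ range D₀.j₃ := by rw [D₀.cover]; trivial
    rcases hy with ⟨a, rfl⟩ | ⟨b, rfl⟩
    · exact imm_piece 2 D₀.j₂ D₁.j₂ S₀.two S₁.two ι h2 a
    · exact imm_piece 3 D₀.j₃ D₁.j₃ S₀.three S₁.three ι h3 b
  · exact (hc.isClosedEmbedding hi).isEmbedding

end Pool.Agent.Helper38S1S3
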