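import Mathlib

/-!
# Immersions and local diffeomorphisms
-/

set_option autoImplicit false
set_option linter.unusedSectionVars false

open scoped Manifold ContDiff Topology
open Set

noncomputable section

namespace Pool.Agent.Helper38S1S3

variable {𝕜 : Type*} [NontriviallyNormedField 𝕜]
  {E E'' : Type*} {F : Type*} [NormedAddCommGroup E] [NormedSpace 𝕜 E]
  [NormedAddCommGroup E''] [NormedSpace 𝕜 E'']
  [NormedAddCommGroup F] [NormedSpace 𝕜 F]
  {H : Type*} [TopologicalSpace H] {G : Type*} [TopologicalSpace G]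
  {I : ModelWithCorners 𝕜 E H} {J : ModelWithCorners 𝕜 E'' G}
  {M : Type*} [TopologicalSpace M] [ChartedSpace H M]
  {M' : Type*} [TopologicalSpace M'] [ChartedSpace H M']
  {N : Type*} [TopologicalSpace N] [ChartedSpace G N]
  {N' : Type*} [TopologicalSpace N'] [ChartedSpace G N']
  {n : WithTop ℕ∞}

/-- being an immersion is invariant under local diffeomorphisms of source and target -/
theorem immersionAt_transfer [IsManifold I n M'] [IsManifold J n N']
    {f : M → N} {f' : M' → N'} {x : M}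
    (h : Manifold.IsImmersionAtOfComplement F I J n f x) (Φ : PartialDiffeomorph I I M M' n)
    (Ψ : PartialDiffeomorph J J N N' n) (hx : x ∈ Φ.source) (hfx : f x ∈ Ψ.source)
    (heq : ∀ᶠ y in 𝓝 x, f' (Φ y) = Ψ (f y)) :
    Manifold.IsImmersionAtOfComplement F I J n f' (Φ x) := by
  have h1 : ∀ᶠ y in 𝓝 x, f' (Φ y) = Ψ (f y) ∧ f y ∈ Ψ.source :=
    heq.and (h.continuousAt.eventually (Ψ.open_source.mem_nhds hfx))
  obtain ⟨U, hU, hUo, hxU⟩ := mem_nhds_iff.1 h1
  set φ := h.domChart with hφ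
  set ψ := h.codChart with hψ
  set A : OpenPartialHomeomorph M' H :=
    Φ.symm.toOpenPartialHomeomorph.trans (φ.restrOpen U hUo) with hA
  set B : OpenPartialHomeomorph N' G := Ψ.symm.toOpenPartialHomeomorph.trans ψ with hB
  have hcφ := contMDiffOn_of_mem_maximalAtlas h.domChart_mem_maximalAtlas
  have hcφ' := contMDiffOn_symm_of_mem_maximalAtlas h.domChart_mem_maximalAtlas
  have hcψ := contMDiffOn_of_mem_maximalAtlas h.codChart_mem_maximalAtlas
  have hcψ' := contMDiffOn_symm_of_mem_maximalAtlas h.codChart_mem_maximalAtlas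
  rw [← hφ] at hcφ hcφ'
  rw [← hψ] at hcψ hcψ'
  have hA1 : A ∈ IsManifold.maximalAtlas I n M' := by
    apply OpenPartialHomeomorph.mem_maximalAtlas_of_contMDiffOn
    · refine hcφ.comp (Φ.contMDiffOn_invFun.mono ?_) ?_
      · intro y hy
        exact hy.1
      · intro y hy
        exact hy.2.1
    · refine Φ.contMDiffOn_toFun.comp (hcφ'.mono ?_) ?_
      · intro y hy
        exact hy.1.1
      · intro y hy
        exact hy.2
  have hB1 : B ∈ IsManifold.maximalAtlas J n N' := by
    apply OpenPartialHomeomorph.mem_maximalAtlas_of_contMDiffOn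
    · refine hcψ.comp (Ψ.contMDiffOn_invFun.mono ?_) ?_
      · intro y hy
        exact hy.1
      · intro y hy
        exact hy.2
    · refine Ψ.contMDiffOn_toFun.comp (hcψ'.mono ?_) ?_
      · intro y hy
        exact hy.1
      · intro y hy
        exact hy.2
  have hΦx : Φ.toPartialEquiv.symm (Φ x) = x := Φ.left_inv hx
  have hΨx : Ψ.toPartialEquiv.symm (Ψ (f x)) = f x := Ψ.left_inv hfx
  have hfΦ : f' (Φ x) = Ψ (f x) := (hU hxU).1
  have hcont : ContinuousAt f' (Φ x) := by
    have h2 : f' =ᶠ[𝓝 (Φ x)] fun y => Ψ (f (Φ.toPartialEquiv.symm y)) := by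
      have h3 : Φ.toOpenPartialHomeomorph.symm.source ∩
          Φ.toOpenPartialHomeomorph.symm ⁻¹' U ∈ 𝓝 (Φ x) := by
        apply (Φ.toOpenPartialHomeomorph.symm.isOpen_inter_preimage hUo).mem_nhds
        refine ⟨Φ.map_source hx, ?_⟩
        change Φ.toPartialEquiv.symm (Φ x) ∈ U
        rw [hΦx]
        exact hxU
      filter_upwards [h3] with y hy
      have h4 := (hU hy.2).1
      change f' (Φ (Φ.toPartialEquiv.symm y)) = Ψ (f (Φ.toPartialEquiv.symm y)) at h4
      rw [← h4]
      congr 1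
      exact (Φ.toPartialEquiv.right_inv hy.1).symm
    refine ContinuousAt.congr ?_ h2.symm
    have c1 : ContinuousAt (fun y => Φ.toPartialEquiv.symm y) (Φ x) :=
      Φ.contMDiffOn_invFun.continuousOn.continuousAt
        (Φ.open_target.mem_nhds (Φ.map_source hx))
    have c2 : ContinuousAt f (Φ.toPartialEquiv.symm (Φ x)) := by
      rw [hΦx]
      exact h.continuousAt
    have c3 : ContinuousAt Ψ (f (Φ.toPartialEquiv.symm (Φ x))) := by
      rw [hΦx]
      exact Ψ.contMDiffOn_toFun.continuousOn.continuousAt (Ψ.open_source.mem_nhds hfx)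
    exact ContinuousAt.comp (g := Ψ) c3 (ContinuousAt.comp (g := f) c2 c1)
  refine Manifold.IsImmersionAtOfComplement.mk_of_continuousAt hcont h.equiv A B ?_ ?_ hA1 hB1 ?_
  · refine ⟨Φ.map_source hx, ?_⟩
    change Φ.toPartialEquiv.symm (Φ x) ∈ φ.source ∩ U
    rw [hΦx]
    exact ⟨h.mem_domChart_source, hxU⟩
  · rw [hfΦ]
    refine ⟨Ψ.map_source hfx, ?_⟩
    change Ψ.toPartialEquiv.symm (Ψ (f x)) ∈ ψ.source
    rw [hΨx]
    exact h.mem_codChart_source
  · intro y hy
    have hy1 : I.symm y ∈ A.target ∧ y ∈ range I := by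
      rw [OpenPartialHomeomorph.extend_target] at hy
      exact hy
    have hy2 : I.symm y ∈ φ.target := hy1.1.1.1
    have hy3 : φ.symm (I.symm y) ∈ U := hy1.1.1.2
    have hy4 : φ.symm (I.symm y) ∈ Φ.source := hy1.1.2
    have hy5 : y ∈ (h.domChart.extend I).target := by
      rw [OpenPartialHomeomorph.extend_target]
      exact ⟨hy2, hy1.2⟩
    have hw := h.writtenInCharts hy5
    have e1 : ((B.extend J) ∘ f' ∘ (A.extend I).symm) y =
        J (ψ (Ψ.toPartialEquiv.symm (f' (Φ (φ.symm (I.symm y)))))) := rfl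
    have e2 : ((h.codChart.extend J) ∘ f ∘ (h.domChart.extend I).symm) y =
      J (ψ (f (φ.symm (I.symm y)))) := rfl
    rw [e1, (hU hy3).1]
    have e3 : Ψ.toPartialEquiv.symm (Ψ (f (φ.symm (I.symm y)))) = f (φ.symm (I.symm y)) :=
      Ψ.left_inv (hU hy3).2
    rw [e3, ← e2, hw]

end Pool.Agent.Helper38S1S3
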