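import Pool.Agent.Helper83_S1S3.Stmts
import Pool.Agent.Helper38_S1S3.Trans

/-!
# The inclusion of spheres is an immersion
-/

set_option autoImplicit false
set_option linter.unusedSectionVars false

open scoped Manifold ContDiff Topology
open Set Module

noncomputable section

namespace Pool.Agent.Helper38S1S3

open Pool.Agent.S1S3

theorem incE_castSucc {k : ℕ} (x : Eu k) (i : Fin k) : incE x i.castSucc = x i := by
  simp [incE]

theorem incE_last {k : ℕ} (x : Eu k) : incE x (Fin.last k) = 0 := by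
  simp [incE]

/-- the inclusion as a linear isometry -/
def incL (k : ℕ) : Eu k →ₗᵢ[ℝ] Eu (k + 1) where
  toFun := incE
  map_add' x y := by
    ext i
    refine Fin.lastCases ?_ (fun i => ?_) i
    · simp [incE_last]
    · simp [incE_castSucc]
  map_smul' c x := by
    ext i
    refine Fin.lastCases ?_ (fun i => ?_) i
    · simp [incE_last]
    · simp [incE_castSucc]
  norm_map' x := by
    have h : ‖incE x‖ ^ 2 = ‖x‖ ^ 2 := by
      rw [EuclideanSpace.norm_sq_eq, EuclideanSpace.norm_sq_eq, Fin.sum_univ_castSucc]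
      simp [incE_last, incE_castSucc]
    exact (pow_left_inj₀ (norm_nonneg _) (norm_nonneg _) two_ne_zero).1 h

theorem incL_apply {k : ℕ} (x : Eu k) : incL k x = incE x := rfl

theorem norm_incE {k : ℕ} (x : Eu k) : ‖incE x‖ = ‖x‖ := (incL k).norm_map x

theorem incE_injective {k : ℕ} : Function.Injective (incE : Eu k → Eu (k + 1)) :=
  (incL k).injective

/-- the inclusion of the sphere into the next one -/
def incS {n : ℕ} (x : Sn n) : Sn (n + 1) :=
  ⟨incE (x : Eu (n + 1)), by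
    rw [mem_sphere_zero_iff_norm, norm_incE]; exact norm_eq_of_mem_sphere x⟩

theorem coe_incS {n : ℕ} (x : Sn n) : (incS x : Eu (n + 2)) = incE (x : Eu (n + 1)) := rfl

theorem continuous_incS {n : ℕ} : Continuous (incS : Sn n → Sn (n + 1)) :=
  Continuous.subtype_mk ((incL (n + 1)).continuous.comp continuous_subtype_val) _

/-- an injective linear map extends to an equivalence -/
theorem exists_equiv {n : ℕ} (L : Eu n →ₗ[ℝ] Eu (n + 1)) (hL : Function.Injective L) :
    ∃ e : (Eu n × Eu 1) ≃L[ℝ] Eu (n + 1), ∀ w, e (w, 0) = L w := by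
  obtain ⟨C, hC⟩ := Submodule.exists_isCompl (LinearMap.range L)
  have h1 : finrank ℝ (LinearMap.range L) = n := by
    rw [LinearMap.finrank_range_of_inj hL, finrank_euclideanSpace_fin]
  have h2 := Submodule.finrank_add_eq_of_isCompl hC
  rw [h1, finrank_euclideanSpace_fin] at h2
  have h3 : finrank ℝ (Eu 1) = finrank ℝ C := by
    rw [finrank_euclideanSpace_fin]
    omega
  obtain ⟨c⟩ : Nonempty (Eu 1 ≃ₗ[ℝ] C) := FiniteDimensional.nonempty_linearEquiv_of_finrank_eq h3
  let e : (Eu n × Eu 1) ≃ₗ[ℝ] Eu (n + 1) :=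
    ((LinearEquiv.ofInjective L hL).prodCongr c).trans (Submodule.prodEquivOfIsCompl _ _ hC)
  refine ⟨e.toContinuousLinearEquiv, fun w => ?_⟩
  change e (w, 0) = L w
  simp [e]

theorem sphere_immersion {n : ℕ} (x : Sn n) :
    Manifold.IsImmersionAtOfComplement (Eu 1) (𝓡 n) (𝓡 (n + 1)) ∞ (incS : Sn n → Sn (n + 1)) x := by
  have f1 : Fact (finrank ℝ (Eu (n + 1)) = n + 1) := ⟨finrank_euclideanSpace_fin⟩
  have f2 : Fact (finrank ℝ (Eu (n + 1 + 1)) = n + 1 + 1) := ⟨finrank_euclideanSpace_fin⟩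
  let U : (ℝ ∙ (((-x : Sn n)) : Eu (n + 1)))ᗮ ≃ₗᵢ[ℝ] EuclideanSpace ℝ (Fin n) :=
    (OrthonormalBasis.fromOrthogonalSpanSingleton n (ne_zero_of_mem_unit_sphere (-x))).repr
  let U' : (ℝ ∙ (((-incS x : Sn (n + 1))) : Eu (n + 1 + 1)))ᗮ ≃ₗᵢ[ℝ]
      EuclideanSpace ℝ (Fin (n + 1)) :=
    (OrthonormalBasis.fromOrthogonalSpanSingleton (n + 1)
      (ne_zero_of_mem_unit_sphere (-incS x))).repr
  have hneg : (((-incS x : Sn (n + 1))) : Eu (n + 1 + 1)) = incE (((-x : Sn n)) : Eu (n + 1)) := by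
    change -(incE (x : Eu (n + 1))) = incE (-(x : Eu (n + 1)))
    exact ((incL (n + 1)).map_neg _).symm
  have hmem : ∀ w : (ℝ ∙ (((-x : Sn n)) : Eu (n + 1)))ᗮ,
      incL (n + 1) (w : Eu (n + 1)) ∈ (ℝ ∙ (((-incS x : Sn (n + 1))) : Eu (n + 1 + 1)))ᗮ := by
    intro w
    rw [Submodule.mem_orthogonal_singleton_iff_inner_right, hneg, ← incL_apply,
      (incL (n + 1)).inner_map_map]
    exact Submodule.mem_orthogonal_singleton_iff_inner_right.1 w.2
  let Lw : (ℝ ∙ (((-x : Sn n)) : Eu (n + 1)))ᗮ →ₗ[ℝ]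
      (ℝ ∙ (((-incS x : Sn (n + 1))) : Eu (n + 1 + 1)))ᗮ :=
    LinearMap.codRestrict _ ((incL (n + 1)).toLinearMap.comp (Submodule.subtype _)) hmem
  let L : Eu n →ₗ[ℝ] Eu (n + 1) :=
    U'.toLinearEquiv.toLinearMap.comp (Lw.comp U.symm.toLinearEquiv.toLinearMap)
  have hLw : ∀ w, ((Lw w : (ℝ ∙ (((-incS x : Sn (n + 1))) : Eu (n + 1 + 1)))ᗮ) :
      Eu (n + 1 + 1)) = incE (w : Eu (n + 1)) := fun w => rfl
  have hLwi : Function.Injective Lw := by
    intro a b hab
    apply Subtype.ext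
    apply incE_injective
    rw [← hLw, ← hLw, hab]
  have hLinj : Function.Injective L := U'.injective.comp (hLwi.comp U.symm.injective)
  obtain ⟨e, he⟩ := exists_equiv L hLinj
  refine Manifold.IsImmersionAtOfComplement.mk_of_continuousAt continuous_incS.continuousAt e
    (chartAt (Eu n) x) (chartAt (Eu (n + 1)) (incS x)) (mem_chart_source _ _)
    (mem_chart_source _ _) (IsManifold.chart_mem_maximalAtlas x)
    (IsManifold.chart_mem_maximalAtlas (incS x)) ?_
  intro y _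
  change (stereographic' (n + 1) (-incS x)) (incS ((stereographic' n (-x)).symm y)) = e (y, 0)
  rw [he]
  have hkey : incS ((stereographic' n (-x)).symm y) =
      (stereographic' (n + 1) (-incS x)).symm (L y) := by
    apply Subtype.ext
    rw [coe_incS, stereographic'_symm_apply, stereographic'_symm_apply]
    have hUL : U'.symm (L y) = Lw (U.symm y) := U'.symm_apply_apply _
    change incE ((‖(U.symm y : Eu (n + 1))‖ ^ 2 + 4)⁻¹ • (4 : ℝ) • (U.symm y : Eu (n + 1)) +
        (‖(U.symm y : Eu (n + 1))‖ ^ 2 + 4)⁻¹ • (‖(U.symm y : Eu (n + 1))‖ ^ 2 - 4) •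
          ((-x : Sn n) : Eu (n + 1))) =
      (‖(U'.symm (L y) : Eu (n + 1 + 1))‖ ^ 2 + 4)⁻¹ • (4 : ℝ) •
        (U'.symm (L y) : Eu (n + 1 + 1)) +
        (‖(U'.symm (L y) : Eu (n + 1 + 1))‖ ^ 2 + 4)⁻¹ •
          (‖(U'.symm (L y) : Eu (n + 1 + 1))‖ ^ 2 - 4) •
          ((-incS x : Sn (n + 1)) : Eu (n + 1 + 1))
    rw [hUL, hLw, norm_incE, hneg, ← incL_apply, ← incL_apply, ← incL_apply, map_add,
      (incL (n + 1)).map_smul, (incL (n + 1)).map_smul, (incL (n + 1)).map_smul,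
      (incL (n + 1)).map_smul]
  rw [hkey]
  apply OpenPartialHomeomorph.right_inv
  rw [stereographic'_target]
  trivial

end Pool.Agent.Helper38S1S3
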